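import Pool.Agent.Run7.h900.BR.Defs
import Pool.Agent.TH286.NC.S1b

/-!
# Project BR (helper900), piece SPLIT: the Bohr compactification of the integers
-/

set_option autoImplicit false

open Filter Topology

namespace Run7.h760.BR

open Pool.Agent.Run7.h900.BR

/-! ### Kronecker -/

theorem kron_fin {r : ℕ} (e z : Fin r → Circle)
    (h : ∀ t : Fin r → ℤ, ∏ j, e j ^ t j = 1 → ∏ j, z j ^ t j = 1) :
    z ∈ closure (Set.range fun k : ℤ => e ^ k) := by
  classical
  set A : Subgroup (Fin r → Circle) := (Subgroup.zpowers e).topologicalClosure with hA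
  have hcl : IsClosed (A : Set (Fin r → Circle)) := Subgroup.isClosed_topologicalClosure _
  have hmem : z ∈ A := by
    by_contra hk
    have hk' : (QuotientGroup.mk z : (Fin r → Circle) ⧸ A) ≠ 1 := by
      rw [ne_eq, QuotientGroup.eq_one_iff]
      exact hk
    have hT2 : T2Space ((Fin r → Circle) ⧸ A) := by infer_instance
    obtain ⟨χ, hχ⟩ := Pool.LatH472.chars (QuotientGroup.mk z : (Fin r → Circle) ⧸ A) hk'
    obtain ⟨t, ht⟩ := Pool.Agent.TH286.NC.S1b.torus_char
      ((χ : ((Fin r → Circle) ⧸ A) →* Circle).comp (QuotientGroup.mk' A))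
      (χ.continuous_toFun.comp QuotientGroup.continuous_mk)
    have hval : ∀ z, ∏ j, z j ^ t j = χ (QuotientGroup.mk z : (Fin r → Circle) ⧸ A) := by
      intro z
      rw [← ht]
      rfl
    have he : e ∈ A := Subgroup.le_topologicalClosure _ (Subgroup.mem_zpowers e)
    have h1 : ∏ j, e j ^ t j = 1 := by
      rw [hval, (QuotientGroup.eq_one_iff e).2 he, map_one]
    exact hχ (by rw [← hval]; exact h t h1)
  have h2 : (A : Set (Fin r → Circle)) = closure (Set.range fun k : ℤ => e ^ k) := by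
    rw [hA, Subgroup.topologicalClosure_coe, Subgroup.coe_zpowers]
  rw [← h2]
  exact hmem

theorem kron {I : Type} (e z : I → Circle)
    (h : ∀ (F : Finset I) (t : I → ℤ), ∏ i ∈ F, e i ^ t i = 1 → ∏ i ∈ F, z i ^ t i = 1) :
    z ∈ closure (Set.range fun k : ℤ => e ^ k) := by
  classical
  rw [mem_closure_iff]
  intro U hU hz
  obtain ⟨F, u, hu, hF⟩ := isOpen_pi_iff.1 hU z hz
  let σ := F.equivFin
  have hk := kron_fin (fun j => e (σ.symm j)) (fun j => z (σ.symm j)) (by
    intro t ht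
    have key : ∀ w : I → Circle, ∏ i ∈ F, w i ^ (if h : i ∈ F then t (σ ⟨i, h⟩) else 0) =
        ∏ j, w (σ.symm j) ^ t j := by
      intro w
      rw [← Finset.prod_coe_sort, ← σ.symm.prod_comp]
      apply Finset.prod_congr rfl
      intro j _
      simp
    have h1 := h F (fun i => if h : i ∈ F then t (σ ⟨i, h⟩) else 0)
    rw [key, key] at h1
    exact h1 ht)
  rw [mem_closure_iff] at hk
  obtain ⟨w, hw, k, hk'⟩ := hk (Set.univ.pi fun j => u (σ.symm j))
    (isOpen_set_pi Set.finite_univ fun j _ => (hu _ (σ.symm j).2).1)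
    (fun j _ => (hu _ (σ.symm j).2).2)
  refine ⟨e ^ k, hF ?_, k, rfl⟩
  intro i hi
  have h2 := hw (σ ⟨i, hi⟩) (Set.mem_univ _)
  rw [← hk'] at h2
  simpa using h2

theorem dns_of {C : Type} [AddCommGroup C] [TopologicalSpace C] {I : Type} (E : C → I → Circle)
    (hE : IsInducing E) (hadd : ∀ x y, E (x + y) = E x * E y) (c : C)
    (h : ∀ (x : C) (F : Finset I) (t : I → ℤ), ∏ i ∈ F, E c i ^ t i = 1 →
      ∏ i ∈ F, E x i ^ t i = 1) : Dns C c := by
  let E' : Multiplicative C →* (I → Circle) :=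
    MonoidHom.mk' (fun x => E (Multiplicative.toAdd x)) (fun x y => hadd _ _)
  have hz : ∀ k : ℤ, E (k • c) = E c ^ k := fun k => by
    have h1 := map_zpow E' (Multiplicative.ofAdd c) k
    rw [← ofAdd_zsmul] at h1
    exact h1
  unfold Dns
  rw [Set.eq_univ_iff_forall]
  intro x
  rw [hE.closure_eq_preimage_closure_image, Set.mem_preimage]
  have h2 : E '' (Set.range fun k : ℤ => k • c) = Set.range fun k : ℤ => E c ^ k := by
    rw [← Set.range_comp]
    congr 1
    funext k
    exact hz k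
  rw [h2]
  exact kron _ _ (h x)

/-! ### the universal property -/

theorem univ_of {C : Type} [AddCommGroup C] [TopologicalSpace C] {c : C} (hc : Dns C c) (M : Type)
    [TopologicalSpace M] [CommGroup M] [IsTopologicalGroup M] [CompactSpace M] [T2Space M] (m : M)
    (hg : ∀ χ : ContinuousMonoidHom M Circle, ∃ g : Multiplicative C →* Circle, Continuous g ∧
      g (Multiplicative.ofAdd c) = χ m) :
    ∃ h : Multiplicative C →* M, Continuous h ∧ h (Multiplicative.ofAdd c) = m := by
  classical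
  choose g hgc hgm using hg
  let ev : M →* (ContinuousMonoidHom M Circle → Circle) :=
    MonoidHom.mk' (fun x χ => χ x) (fun x y => by funext χ; exact map_mul χ x y)
  have hevc : Continuous ev := continuous_pi fun χ => χ.continuous_toFun
  have hevi : Function.Injective ev := by
    rw [injective_iff_map_eq_one]
    intro x hx
    by_contra hne
    obtain ⟨χ, hχ⟩ := Pool.LatH472.chars x hne
    exact hχ (congrFun hx χ)
  have hcl : IsClosedEmbedding ev := hevc.isClosedEmbedding hevi
  let H : Multiplicative C →* (ContinuousMonoidHom M Circle → Circle) := MonoidHom.pi g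
  have hHc : Continuous H := continuous_pi fun χ => hgc χ
  have hHm : H (Multiplicative.ofAdd c) = ev m := by
    funext χ
    exact hgm χ
  have hr : ∀ x : Multiplicative C, ∃ y : M, ev y = H x := by
    intro x
    have h1 : IsClosed {x : C | H (Multiplicative.ofAdd x) ∈ Set.range ev} :=
      hcl.isClosed_range.preimage (hHc.comp continuous_ofAdd)
    have h2 : closure (Set.range fun k : ℤ => k • c) ⊆
        {x : C | H (Multiplicative.ofAdd x) ∈ Set.range ev} := by
      apply closure_minimal _ h1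
      rintro _ ⟨k, rfl⟩
      refine ⟨m ^ k, ?_⟩
      show ev (m ^ k) = H (Multiplicative.ofAdd (k • c))
      rw [ofAdd_zsmul, map_zpow, map_zpow, hHm]
    rw [hc] at h2
    exact h2 (Set.mem_univ (Multiplicative.toAdd x))
  choose f hf using hr
  have hmul : ∀ x y, f (x * y) = f x * f y := by
    intro x y
    apply hevi
    rw [hf, map_mul, map_mul, hf, hf]
  refine ⟨MonoidHom.mk' f hmul, ?_, ?_⟩
  · rw [hcl.isInducing.continuous_iff]
    have h3 : ⇑ev ∘ ⇑(MonoidHom.mk' f hmul) = H := by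
      funext x
      exact hf x
    rw [h3]
    exact hHc
  · apply hevi
    show ev (f _) = _
    rw [hf, hHm]

/-! ### no small subgroups -/

theorem nss (u : Circle) (h : ∀ j : ℕ, ‖((u ^ j : Circle) : ℂ) - 1‖ ≤ 1 / 2) : u = 1 := by
  have h1 : ∀ n : ℕ, (3 / 2 : ℝ) ^ n * ‖(u : ℂ) - 1‖ ≤ ‖((u ^ (2 ^ n) : Circle) : ℂ) - 1‖ := by
    intro n
    induction n with
    | zero => simp
    | succ n ih =>
      have e1 : ((u ^ (2 ^ (n + 1)) : Circle) : ℂ) - 1 =
          (((u ^ (2 ^ n) : Circle) : ℂ) - 1) * (((u ^ (2 ^ n) : Circle) : ℂ) + 1) := by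
        rw [pow_succ, pow_mul, Circle.coe_pow]
        ring
      have e2 : (3 / 2 : ℝ) ≤ ‖((u ^ (2 ^ n) : Circle) : ℂ) + 1‖ := by
        have e3 : (2 : ℂ) = (((u ^ (2 ^ n) : Circle) : ℂ) + 1) -
            (((u ^ (2 ^ n) : Circle) : ℂ) - 1) := by ring
        have e4 := norm_sub_le (((u ^ (2 ^ n) : Circle) : ℂ) + 1)
          (((u ^ (2 ^ n) : Circle) : ℂ) - 1)
        rw [← e3] at e4
        have e5 := h (2 ^ n)
        have e6 : ‖(2 : ℂ)‖ = 2 := by norm_num
        linarith
      rw [e1, norm_mul, pow_succ]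
      have := norm_nonneg ((u : ℂ) - 1)
      have := norm_nonneg (((u ^ (2 ^ n) : Circle) : ℂ) - 1)
      nlinarith
  by_contra hne
  have h2 : 0 < ‖(u : ℂ) - 1‖ := by
    rw [norm_pos_iff, sub_ne_zero]
    intro h3
    apply hne
    ext
    simpa using h3
  obtain ⟨n, hn⟩ := pow_unbounded_of_one_lt (1 / ‖(u : ℂ) - 1‖) (by norm_num : (1 : ℝ) < 3 / 2)
  have h3 := h1 n
  have h4 := h (2 ^ n)
  rw [div_lt_iff₀ h2] at hn
  linarith

theorem tors {M : Type} [TopologicalSpace M] [CommGroup M] [IsTopologicalGroup M] [CompactSpace M]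
    [T2Space M] [TotallyDisconnectedSpace M] (χ : ContinuousMonoidHom M Circle) (m : M) :
    ∃ k : ℕ, k ≠ 0 ∧ χ m ^ k = 1 := by
  have hc : Continuous fun x : M => ‖((χ x : Circle) : ℂ) - 1‖ := by
    have : Continuous fun x : M => χ x := χ.continuous_toFun
    fun_prop
  have hU : IsOpen {x : M | ‖((χ x : Circle) : ℂ) - 1‖ < 1 / 2} := isOpen_lt hc continuous_const
  have h1 : (1 : M) ∈ {x : M | ‖((χ x : Circle) : ℂ) - 1‖ < 1 / 2} := by
    simp
  obtain ⟨N, hN⟩ := ProfiniteGrp.exist_openNormalSubgroup_sub_open_nhds_of_one hU h1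
  have hfin : Finite (M ⧸ (N : Subgroup M)) := Subgroup.quotient_finite_of_isOpen _ N.isOpen'
  have hidx : (N : Subgroup M).index ≠ 0 := by
    rw [Subgroup.index_eq_card]
    exact Nat.card_ne_zero.2 ⟨inferInstance, hfin⟩
  refine ⟨(N : Subgroup M).index, hidx, ?_⟩
  apply nss
  intro j
  have h2 : (m ^ (N : Subgroup M).index) ^ j ∈ (N : Subgroup M) :=
    Subgroup.pow_mem _ (Subgroup.pow_index_mem (N : Subgroup M) m) j
  have h3 : (m ^ (N : Subgroup M).index) ^ j ∈ {x : M | ‖((χ x : Circle) : ℂ) - 1‖ < 1 / 2} :=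
    hN h2
  have h4 : ‖((χ ((m ^ (N : Subgroup M).index) ^ j) : Circle) : ℂ) - 1‖ < 1 / 2 := h3
  rw [map_pow, map_pow] at h4
  exact h4.le

/-! ### the two groups -/

abbrev T := UnitAddCircle

theorem toC_sum {I : Type} (F : Finset I) (t : I → ℤ) (v : I → T) :
    ∏ i ∈ F, AddCircle.toCircle (v i) ^ t i = AddCircle.toCircle (∑ i ∈ F, t i • v i) := by
  classical
  induction F using Finset.induction_on with
  | empty => simp
  | insert a F ha ih =>
    rw [Finset.prod_insert ha, Finset.sum_insert ha, ih, AddCircle.toCircle_add,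
      AddCircle.toCircle_zsmul]

theorem toC_eq_one {x : T} : AddCircle.toCircle x = 1 ↔ x = 0 :=
  ⟨fun h => AddCircle.injective_toCircle one_ne_zero (by rw [h, AddCircle.toCircle_zero]),
    fun h => by rw [h, AddCircle.toCircle_zero]⟩

/-- a complement of `ℚ` in `ℝ` -/
noncomputable def W : Submodule ℚ ℝ :=
  Classical.choose (Submodule.exists_isCompl (Submodule.span ℚ {(1 : ℝ)}))

theorem hW : IsCompl (Submodule.span ℚ {(1 : ℝ)}) W :=
  Classical.choose_spec (Submodule.exists_isCompl (Submodule.span ℚ {(1 : ℝ)}))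

/-- `Hom (ℚ / ℤ, T)` -/
noncomputable def PG : AddSubgroup (ℚ → T) where
  carrier := {x | (∀ a b, x (a + b) = x a + x b) ∧ x 1 = 0}
  add_mem' := by
    rintro x y ⟨h1, h2⟩ ⟨h3, h4⟩
    refine ⟨fun a b => ?_, ?_⟩
    · simp only [Pi.add_apply, h1, h3]
      abel
    · simp only [Pi.add_apply, h2, h4, add_zero]
  zero_mem' := ⟨fun a b => by simp, rfl⟩
  neg_mem' := by
    rintro x ⟨h1, h2⟩
    refine ⟨fun a b => ?_, ?_⟩
    · simp only [Pi.neg_apply, h1]
      abel
    · simp only [Pi.neg_apply, h2, neg_zero]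

/-- `Hom (W, T)` -/
noncomputable def SG : AddSubgroup (W → T) where
  carrier := {x | ∀ a b, x (a + b) = x a + x b}
  add_mem' := by
    intro x y h1 h3 a b
    simp only [Pi.add_apply, h1 a b, h3 a b]
    abel
  zero_mem' := fun a b => by simp
  neg_mem' := by
    intro x h1 a b
    simp only [Pi.neg_apply, h1 a b]
    abel

/-- as homomorphisms -/
noncomputable def xh (x : PG) : ℚ →+ T := AddMonoidHom.mk' x.1 x.2.1

noncomputable def yh (y : SG) : W →+ T := AddMonoidHom.mk' y.1 y.2

theorem xh_apply (x : PG) (q : ℚ) : xh x q = x.1 q := rfl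

theorem yh_apply (y : SG) (w : W) : yh y w = y.1 w := rfl

theorem closed_PG : IsClosed (PG : Set (ℚ → T)) := by
  have h : (PG : Set (ℚ → T)) = (⋂ a, ⋂ b, {x | x (a + b) = x a + x b}) ∩ {x | x 1 = 0} := by
    ext x
    constructor
    · rintro ⟨h1, h2⟩
      refine ⟨?_, h2⟩
      rw [Set.mem_iInter]
      intro a
      rw [Set.mem_iInter]
      intro b
      exact h1 a b
    · rintro ⟨h1, h2⟩
      refine ⟨fun a b => ?_, h2⟩
      rw [Set.mem_iInter] at h1
      have h3 := h1 a
      rw [Set.mem_iInter] at h3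
      exact h3 b
  rw [h]
  apply IsClosed.inter
  · exact isClosed_iInter fun a => isClosed_iInter fun b =>
      isClosed_eq (continuous_apply _) ((continuous_apply a).add (continuous_apply b))
  · exact isClosed_eq (continuous_apply _) continuous_const

theorem closed_SG : IsClosed (SG : Set (W → T)) := by
  have h : (SG : Set (W → T)) = ⋂ a, ⋂ b, {x | x (a + b) = x a + x b} := by
    ext x
    constructor
    · intro h1
      rw [Set.mem_iInter]
      intro a
      rw [Set.mem_iInter]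
      intro b
      exact h1 a b
    · intro h1 a b
      rw [Set.mem_iInter] at h1
      have h3 := h1 a
      rw [Set.mem_iInter] at h3
      exact h3 b
  rw [h]
  exact isClosed_iInter fun a => isClosed_iInter fun b =>
    isClosed_eq (continuous_apply _) ((continuous_apply a).add (continuous_apply b))

instance : CompactSpace PG := closed_PG.isClosedEmbedding_subtypeVal.compactSpace

instance : CompactSpace SG := closed_SG.isClosedEmbedding_subtypeVal.compactSpace

theorem cont_P (q : ℚ) : Continuous fun x : PG => x.1 q :=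
  (continuous_apply q).comp continuous_subtype_val

theorem cont_S (w : W) : Continuous fun y : SG => y.1 w :=
  (continuous_apply w).comp continuous_subtype_val

theorem den_smul (x : PG) (q : ℚ) : q.den • x.1 q = 0 := by
  have h1 : q.den • xh x q = xh x (q.den • q) := (map_nsmul (xh x) q.den q).symm
  have h2 : q.den • q = q.num • (1 : ℚ) := by
    rw [nsmul_eq_mul, zsmul_eq_mul, mul_one, mul_comm]
    exact Rat.mul_den_eq_num q
  rw [h2, map_zsmul, xh_apply, xh_apply, x.2.2, smul_zero] at h1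
  exact h1

instance : TotallyDisconnectedSpace PG := by
  constructor
  intro s _ hs x hx y hy
  apply Subtype.ext
  funext q
  by_contra hne
  have himg : IsPreconnected ((fun x : PG => x.1 q) '' s) := hs.image _ (cont_P q).continuousOn
  have hnt : ((fun x : PG => x.1 q) '' s).Nontrivial := ⟨_, ⟨x, hx, rfl⟩, _, ⟨y, hy, rfl⟩, hne⟩
  apply himg.infinite_of_nontrivial hnt
  apply (AddCircle.finite_torsion (1 : ℝ) (n := q.den) q.pos).subset
  rintro _ ⟨z, -, rfl⟩
  exact den_smul z q

theorem P_tf (k : ℕ) (hk : k ≠ 0) (x : PG) (h : k • x = 0) : x = 0 := by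
  apply Subtype.ext
  funext q
  have h1 : xh x q = k • xh x (q / k) := by
    rw [← map_nsmul]
    congr 1
    rw [nsmul_eq_mul]
    field_simp
  have h2 : (k • x).1 (q / k) = 0 := by
    rw [h]
    rfl
  have h3 : (k • x).1 (q / k) = k • x.1 (q / k) := rfl
  rw [xh_apply, xh_apply, ← h3, h2] at h1
  exact h1

theorem S_div (k : ℕ) (hk : k ≠ 0) : Function.Bijective fun y : SG => k • y := by
  have hk' : (k : ℚ) ≠ 0 := Nat.cast_ne_zero.2 hk
  have key : ∀ (y : SG) (w : W), k • y.1 ((k : ℚ)⁻¹ • w) = y.1 w := by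
    intro y w
    have h1 : k • yh y ((k : ℚ)⁻¹ • w) = yh y (k • ((k : ℚ)⁻¹ • w)) := (map_nsmul (yh y) k _).symm
    have h2 : k • ((k : ℚ)⁻¹ • w) = w := by
      rw [← Nat.cast_smul_eq_nsmul ℚ, smul_smul, mul_inv_cancel₀ hk', one_smul]
    rw [h2] at h1
    exact h1
  constructor
  · intro y y' h
    apply Subtype.ext
    funext w
    have h1 : (k • y).1 ((k : ℚ)⁻¹ • w) = (k • y').1 ((k : ℚ)⁻¹ • w) := by
      have h2 : k • y = k • y' := h
      rw [h2]
    have h3 : k • y.1 ((k : ℚ)⁻¹ • w) = k • y'.1 ((k : ℚ)⁻¹ • w) := h1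
    rw [key, key] at h3
    exact h3
  · intro y
    refine ⟨⟨fun w => y.1 ((k : ℚ)⁻¹ • w), fun a b => ?_⟩, ?_⟩
    · show y.1 ((k : ℚ)⁻¹ • (a + b)) = y.1 ((k : ℚ)⁻¹ • a) + y.1 ((k : ℚ)⁻¹ • b)
      rw [smul_add]
      exact y.2 _ _
    · apply Subtype.ext
      funext w
      exact key y w

/-- the generators -/
noncomputable def pp : PG := ⟨fun q => ((q : ℝ) : T), fun a b => by
  push_cast
  rfl, by
  have : ((1 : ℝ) : T) = 0 := AddCircle.coe_period 1
  simpa using this⟩

noncomputable def ss : SG := ⟨fun w => ((w : ℝ) : T), fun a b => by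
  push_cast
  rfl⟩

theorem pp_apply (q : ℚ) : pp.1 q = ((q : ℝ) : T) := rfl

theorem ss_apply (w : W) : ss.1 w = ((w : ℝ) : T) := rfl

/-- the relations of the generators hold everywhere -/
theorem rel {I : Type} (F : Finset I) (t : I → ℤ) (α : I → ℚ) (β : I → W)
    (h : ∑ i ∈ F, t i • (pp.1 (α i) + ss.1 (β i)) = 0) (x : PG) (y : SG) :
    ∑ i ∈ F, t i • (x.1 (α i) + y.1 (β i)) = 0 := by
  have hsum : ∀ (x : PG) (y : SG), ∑ i ∈ F, t i • (x.1 (α i) + y.1 (β i)) =
      x.1 (∑ i ∈ F, t i • α i) + y.1 (∑ i ∈ F, t i • β i) := by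
    intro x y
    rw [← xh_apply, ← yh_apply, map_sum, map_sum, ← Finset.sum_add_distrib]
    apply Finset.sum_congr rfl
    intro i _
    rw [map_zsmul, map_zsmul, ← smul_add]
    rfl
  rw [hsum] at h ⊢
  set Q := ∑ i ∈ F, t i • α i
  set ω := ∑ i ∈ F, t i • β i
  rw [pp_apply, ss_apply] at h
  have h1 : (((Q : ℝ) + (ω : ℝ) : ℝ) : T) = 0 := h
  obtain ⟨n, hn⟩ := (AddCircle.coe_eq_zero_iff (1 : ℝ)).1 h1
  rw [zsmul_eq_mul, mul_one] at hn
  have h2 : (ω : ℝ) ∈ Submodule.span ℚ {(1 : ℝ)} := by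
    rw [Submodule.mem_span_singleton]
    refine ⟨(n : ℚ) - Q, ?_⟩
    rw [Rat.smul_def]
    push_cast
    linarith
  have h3 : (ω : ℝ) = 0 := (Submodule.disjoint_def.1 hW.disjoint) _ h2 ω.2
  have h4 : ω = 0 := Subtype.ext h3
  have h5 : Q = n • (1 : ℚ) := by
    rw [h3, add_zero] at hn
    rw [zsmul_eq_mul, mul_one]
    exact_mod_cast hn.symm
  rw [h4, h5, ← xh_apply, ← yh_apply, map_zero, map_zsmul, xh_apply, x.2.2, smul_zero, add_zero]

/-- embedding of `P` -/
noncomputable def EP (x : PG) (q : ℚ) : Circle := AddCircle.toCircle (x.1 q)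

noncomputable def ES (y : SG) (w : W) : Circle := AddCircle.toCircle (y.1 w)

theorem ind_EP : IsInducing EP := by
  have h : EP = (Homeomorph.piCongrRight fun _ : ℚ =>
      AddCircle.homeomorphCircle (T := (1 : ℝ)) one_ne_zero) ∘ Subtype.val := by
    funext x q
    exact (AddCircle.homeomorphCircle_apply _ _).symm
  rw [h]
  exact (Homeomorph.isInducing _).comp IsInducing.subtypeVal

theorem ind_ES : IsInducing ES := by
  have h : ES = (Homeomorph.piCongrRight fun _ : W =>
      AddCircle.homeomorphCircle (T := (1 : ℝ)) one_ne_zero) ∘ Subtype.val := by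
    funext x q
    exact (AddCircle.homeomorphCircle_apply _ _).symm
  rw [h]
  exact (Homeomorph.isInducing _).comp IsInducing.subtypeVal

/-- embedding of `P × S` -/
noncomputable def EE (z : PG × SG) : ℚ ⊕ W → Circle := Sum.elim (EP z.1) (ES z.2)

theorem ind_EE : IsInducing EE := by
  have h : EE = (Homeomorph.sumArrowHomeomorphProdArrow (ι := ℚ) (ι' := W) (X := Circle)).symm ∘
      Prod.map EP ES := by
    funext z i
    cases i <;> rfl
  rw [h]
  exact (Homeomorph.isInducing _).comp (ind_EP.prodMap ind_ES)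

noncomputable def al : ℚ ⊕ W → ℚ := Sum.elim id fun _ => 0
noncomputable def be : ℚ ⊕ W → W := Sum.elim (fun _ => 0) id

theorem EE_apply (z : PG × SG) (i : ℚ ⊕ W) :
    EE z i = AddCircle.toCircle (z.1.1 (al i) + z.2.1 (be i)) := by
  cases i with
  | inl q =>
    have h : z.2.1 0 = 0 := map_zero (yh z.2)
    show AddCircle.toCircle (z.1.1 q) = AddCircle.toCircle (z.1.1 q + z.2.1 0)
    rw [h, add_zero]
  | inr w =>
    have h : z.1.1 0 = 0 := map_zero (xh z.1)
    show AddCircle.toCircle (z.2.1 w) = AddCircle.toCircle (z.1.1 0 + z.2.1 w)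
    rw [h, zero_add]

theorem dns_P : Dns PG pp := by
  apply dns_of EP ind_EP
  · intro x y
    funext q
    exact AddCircle.toCircle_add _ _
  · intro x F t h
    have e : ∀ x : PG, ∏ i ∈ F, EP x i ^ t i =
        AddCircle.toCircle (∑ i ∈ F, t i • (x.1 (id i) + (0 : SG).1 0)) := by
      intro x
      rw [← toC_sum]
      apply Finset.prod_congr rfl
      intro i _
      have h0 : (0 : SG).1 0 = 0 := rfl
      rw [h0, add_zero]
      rfl
    have e2 : ∏ i ∈ F, EP pp i ^ t i =
        AddCircle.toCircle (∑ i ∈ F, t i • (pp.1 (id i) + ss.1 0)) := by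
      rw [← toC_sum]
      apply Finset.prod_congr rfl
      intro i _
      have h0 : ss.1 0 = 0 := map_zero (yh ss)
      rw [h0, add_zero]
      rfl
    rw [e2, toC_eq_one] at h
    rw [e, toC_eq_one]
    exact rel F t id (fun _ => 0) h x 0

theorem dns_PS : Dns (PG × SG) (pp, ss) := by
  apply dns_of EE ind_EE
  · intro x y
    funext i
    rw [Pi.mul_apply, EE_apply, EE_apply, EE_apply, ← AddCircle.toCircle_add]
    congr 1
    show (x.1.1 (al i) + y.1.1 (al i)) + (x.2.1 (be i) + y.2.1 (be i)) = _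
    abel
  · intro x F t h
    have e : ∀ x : PG × SG, ∏ i ∈ F, EE x i ^ t i =
        AddCircle.toCircle (∑ i ∈ F, t i • (x.1.1 (al i) + x.2.1 (be i))) := by
      intro x
      rw [← toC_sum]
      apply Finset.prod_congr rfl
      intro i _
      rw [EE_apply]
    rw [e, toC_eq_one] at h ⊢
    exact rel F t al be h x.1 x.2

theorem exists_real (u : Circle) : ∃ r : ℝ, AddCircle.toCircle ((r : ℝ) : T) = u := by
  obtain ⟨θ, hθ⟩ := (AddCircle.homeomorphCircle (T := (1 : ℝ)) one_ne_zero).surjective u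
  rw [AddCircle.homeomorphCircle_apply] at hθ
  induction θ using QuotientAddGroup.induction_on with
  | H r => exact ⟨r, hθ⟩

theorem up_P : UP PG pp := by
  refine ⟨dns_P, ?_⟩
  intro M _ _ _ _ _ _ m
  apply univ_of dns_P
  intro χ
  obtain ⟨k, hk, hχ⟩ := tors χ m
  obtain ⟨r, hr⟩ := exists_real (χ m)
  have h1 : (k : ℤ) • ((r : ℝ) : T) = 0 := by
    rw [← toC_eq_one, AddCircle.toCircle_zsmul, hr, zpow_natCast, hχ]
  have h2 : (((k : ℤ) • r : ℝ) : T) = 0 := h1
  obtain ⟨n, hn⟩ := (AddCircle.coe_eq_zero_iff (1 : ℝ)).1 h2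
  rw [zsmul_eq_mul, zsmul_eq_mul, mul_one, Int.cast_natCast] at hn
  have hk' : (k : ℝ) ≠ 0 := Nat.cast_ne_zero.2 hk
  have h3 : (((n : ℚ) / k : ℚ) : ℝ) = r := by
    push_cast
    rw [div_eq_iff hk', hn]
    ring
  refine ⟨MonoidHom.mk' (fun x => AddCircle.toCircle ((Multiplicative.toAdd x).1 ((n : ℚ) / k)))
    (fun x y => AddCircle.toCircle_add _ _), ?_, ?_⟩
  · exact AddCircle.continuous_toCircle.comp ((cont_P _).comp continuous_toAdd)
  · show AddCircle.toCircle (pp.1 ((n : ℚ) / k)) = χ m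
    rw [pp_apply, h3, hr]

theorem uc_PS : UC (PG × SG) (pp, ss) := by
  refine ⟨dns_PS, ?_⟩
  intro M _ _ _ _ _ m
  apply univ_of dns_PS
  intro χ
  obtain ⟨r, hr⟩ := exists_real (χ m)
  have h1 : r ∈ Submodule.span ℚ {(1 : ℝ)} ⊔ W := by
    rw [hW.sup_eq_top]
    exact Submodule.mem_top
  obtain ⟨a, ha, w, hw, haw⟩ := Submodule.mem_sup.1 h1
  obtain ⟨q, rfl⟩ := Submodule.mem_span_singleton.1 ha
  rw [Rat.smul_def, mul_one] at haw
  refine ⟨MonoidHom.mk' (fun x => AddCircle.toCircle ((Multiplicative.toAdd x).1.1 q +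
    (Multiplicative.toAdd x).2.1 ⟨w, hw⟩)) (fun x y => ?_), ?_, ?_⟩
  · rw [← AddCircle.toCircle_add]
    congr 1
    show ((Multiplicative.toAdd x).1.1 q + (Multiplicative.toAdd y).1.1 q) +
      ((Multiplicative.toAdd x).2.1 ⟨w, hw⟩ + (Multiplicative.toAdd y).2.1 ⟨w, hw⟩) = _
    abel
  · apply AddCircle.continuous_toCircle.comp
    exact ((cont_P q).comp (continuous_fst.comp continuous_toAdd)).add
      ((cont_S ⟨w, hw⟩).comp (continuous_snd.comp continuous_toAdd))
  · show AddCircle.toCircle (pp.1 q + ss.1 ⟨w, hw⟩) = χ m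
    rw [pp_apply, ss_apply, ← hr, ← haw]
    rfl

/-- **SPLIT.** -/
theorem t_SPLIT : S_SPLIT :=
  ⟨PG, SG, inferInstance, inferInstance, inferInstance, inferInstance, inferInstance,
    inferInstance, inferInstance, inferInstance, inferInstance, inferInstance, inferInstance,
    pp, ss, P_tf, S_div, uc_PS, up_P⟩

end Run7.h760.BR
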